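import Pool.Agent.Helper65.EV.St

/-!
# Project EV (MP_dd3681_pr): module WG, one step of the truncated logarithm of the level
-/

set_option autoImplicit false

open MeasureTheory ProbabilityTheory Set Filter
open scoped ENNReal Topology

namespace Pool.Agent.Helper43.EV

open Pool.Agent.Helper65.EV Pool.Agent.Helper84.Eve

private lemma w_sum (u : ℝ) (n : ℕ) :
    ∑ κ ∈ (Finset.range n).powerset, u ^ κ.card * (1 - u) ^ (n - κ.card) = 1 := by
  have h := Finset.sum_pow_mul_eq_add_pow u (1 - u) (Finset.range n)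
  rw [Finset.card_range] at h
  rw [h]
  have e : u + (1 - u) = 1 := by ring
  rw [e, one_pow]

private lemma tl_nonneg {s : ℝ} (hs : 0 ≤ s) (a : ℕ) : 0 ≤ tl s a := by
  unfold tl
  refine le_min (Real.log_nonneg ?_) hs
  have : (0 : ℝ) ≤ a := Nat.cast_nonneg a
  linarith

private lemma tl_mono (s : ℝ) {a b : ℕ} (h : a ≤ b) : tl s a ≤ tl s b := by
  unfold tl
  have h1 : (0 : ℝ) ≤ a := Nat.cast_nonneg a
  have h2 : (a : ℝ) ≤ b := Nat.cast_le.2 h
  exact min_le_min (Real.log_le_log (by linarith) (by linarith)) le_rfl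

/-- WG -/
theorem hWG (h1 : hUG) (h2 : hWK) : hWG := by
  classical
  intro Λ hΛ hΛ1 n h s a hh hs hf
  set d : Finset ℕ → ℝ := fun κ => tl s (pos κ a) - tl s a with hd
  have hd0 : ∀ κ, 0 ≤ d κ := fun κ => sub_nonneg.2 (tl_mono s (le_pos κ a))
  have hta : 0 ≤ tl s a := tl_nonneg hs a
  have hsplit : ∀ κ : Finset ℕ, ENNReal.ofReal (tl s (pos κ a)) =
      ENNReal.ofReal (tl s a) + ENNReal.ofReal (d κ) := by
    intro κ
    rw [← ENNReal.ofReal_add hta (hd0 κ)]
    congr 1
    simp only [hd]
    ring
  have hdempty : d ∅ = 0 := by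
    have : pos ∅ a = a := pos_of_cnt_le (by simp [cnt])
    simp only [hd]
    rw [this, sub_self]
  -- the pointwise bound
  have hpt : ∀ u : ℝ, 0 ≤ u → u < 1 →
      ∑ κ ∈ (Finset.range n).powerset,
        ENNReal.ofReal u ^ κ.card * ENNReal.ofReal (1 - u) ^ (n - κ.card) * ENNReal.ofReal (d κ) ≤
      ENNReal.ofReal (min (-Real.log (1 - u)) s) := by
    intro u hu0 hu1
    have hv : 0 ≤ 1 - u := by linarith
    have e1 : ∀ κ ∈ (Finset.range n).powerset,
        ENNReal.ofReal u ^ κ.card * ENNReal.ofReal (1 - u) ^ (n - κ.card) * ENNReal.ofReal (d κ) =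
        ENNReal.ofReal (u ^ κ.card * (1 - u) ^ (n - κ.card) * d κ) := by
      intro κ _
      rw [ENNReal.ofReal_mul (by positivity), ENNReal.ofReal_mul (by positivity),
        ENNReal.ofReal_pow hu0, ENNReal.ofReal_pow hv]
    rw [Finset.sum_congr rfl e1, ← ENNReal.ofReal_sum_of_nonneg
      (fun κ _ => mul_nonneg (by positivity) (hd0 κ))]
    apply ENNReal.ofReal_le_ofReal
    have e2 : ∑ κ ∈ (Finset.range n).powerset, u ^ κ.card * (1 - u) ^ (n - κ.card) * d κ =
        ∑ κ ∈ (Finset.range n).powerset, u ^ κ.card * (1 - u) ^ (n - κ.card) * tl s (pos κ a) -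
        tl s a := by
      have : tl s a = ∑ κ ∈ (Finset.range n).powerset,
          u ^ κ.card * (1 - u) ^ (n - κ.card) * tl s a := by
        rw [← Finset.sum_mul, w_sum, one_mul]
      rw [eq_sub_iff_add_eq]
      conv_lhs => rw [this]
      rw [← Finset.sum_add_distrib]
      apply Finset.sum_congr rfl
      intro κ _
      simp only [hd]
      ring
    rw [e2]
    have := h1 u hu0 hu1 s hs n a
    linarith
  have hae : ∀ᵐ u ∂(nu Λ), 0 ≤ u ∧ u < 1 := by
    have hne : ∀ᵐ u ∂(nu Λ), u ≠ 1 := by
      rw [ae_iff]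
      have : {u : ℝ | ¬ u ≠ 1} = {1} := by
        ext u
        simp
      rw [this, nu_singleton, hΛ1, mul_zero]
    filter_upwards [nu_supp hΛ, hne] with u hu hu1
    exact ⟨hu.1, lt_of_le_of_ne hu.2 hu1⟩
  have hint : ∑ κ ∈ (Finset.range n).powerset, wS Λ n {κ} * ENNReal.ofReal (d κ) ≤ AA Λ s := by
    have e1 : ∀ κ ∈ (Finset.range n).powerset, wS Λ n {κ} * ENNReal.ofReal (d κ) =
        ∫⁻ u, ENNReal.ofReal u ^ κ.card * ENNReal.ofReal (1 - u) ^ (n - κ.card) *
          ENNReal.ofReal (d κ) ∂(nu Λ) := by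
      intro κ hκ
      rw [h2 Λ hΛ n κ hκ, lintegral_mul_const]
      fun_prop
    rw [Finset.sum_congr rfl e1, ← lintegral_finsetSum]
    · unfold AA
      apply lintegral_mono_ae
      filter_upwards [hae] with u hu
      exact hpt u hu.1 hu.2
    · intro κ _
      fun_prop
  calc ∑ κ ∈ (Finset.range n).powerset, wt Λ n h κ * ENNReal.ofReal (tl s (pos κ a))
      = ∑ κ ∈ (Finset.range n).powerset, wt Λ n h κ * ENNReal.ofReal (tl s a) +
        ∑ κ ∈ (Finset.range n).powerset, wt Λ n h κ * ENNReal.ofReal (d κ) := by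
          rw [← Finset.sum_add_distrib]
          apply Finset.sum_congr rfl
          intro κ _
          rw [hsplit κ, mul_add]
    _ ≤ ENNReal.ofReal (tl s a) + ENNReal.ofReal h * AA Λ s := by
          apply add_le_add
          · rw [← Finset.sum_mul]
            calc _ ≤ 1 * ENNReal.ofReal (tl s a) :=
                  mul_le_mul_left (sum_wt_le_one n hh hf) _
              _ = _ := one_mul _
          · calc ∑ κ ∈ (Finset.range n).powerset, wt Λ n h κ * ENNReal.ofReal (d κ)
                ≤ ∑ κ ∈ (Finset.range n).powerset,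
                  ENNReal.ofReal h * (wS Λ n {κ} * ENNReal.ofReal (d κ)) := by
                    apply Finset.sum_le_sum
                    intro κ _
                    by_cases hκ : κ = ∅
                    · subst hκ
                      rw [hdempty]
                      simp
                    · rw [← mul_assoc]
                      exact mul_le_mul_left (wt_le hh hκ) _
              _ = ENNReal.ofReal h *
                  ∑ κ ∈ (Finset.range n).powerset, wS Λ n {κ} * ENNReal.ofReal (d κ) := by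
                    rw [Finset.mul_sum]
              _ ≤ ENNReal.ofReal h * AA Λ s := mul_le_mul_right hint _

end Pool.Agent.Helper43.EV
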